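import Pool.Agent.H889R3.SA.Stmts

/-!
# Noise stable Aaronson-Ambainis inequality: Tasks A1 and A2
-/

set_option autoImplicit false

namespace Pool.Agent.H889R3.SA

open Finset

theorem cc_eq_zero {n m t : ℕ} (h : m < t) : cc n m t = 0 := by
  unfold cc
  exact Finset.prod_eq_zero (Finset.mem_range.2 h) (by simp)

theorem taskA1 : TaskA1 := by
  intro n m t hmn htn
  by_cases h : t ≤ m
  · unfold cc
    have key : ∀ i ∈ Finset.range t, 0 < (n : ℝ) - i ∧ 0 ≤ (m : ℝ) - i ∧
        (m : ℝ) - i ≤ (n : ℝ) - i := by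
      intro i hi
      have hi' := Finset.mem_range.1 hi
      have h1 : (i : ℝ) < m := by exact_mod_cast lt_of_lt_of_le hi' h
      have h2 : (m : ℝ) ≤ n := by exact_mod_cast hmn
      refine ⟨by linarith, by linarith, by linarith⟩
    constructor
    · apply Finset.prod_nonneg
      intro i hi
      obtain ⟨h1, h2, _⟩ := key i hi
      exact div_nonneg h2 h1.le
    · apply Finset.prod_le_one
      · intro i hi
        obtain ⟨h1, h2, _⟩ := key i hi
        exact div_nonneg h2 h1.le
      · intro i hi
        obtain ⟨h1, _, h3⟩ := key i hi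
        exact (div_le_one h1).2 h3
  · rw [cc_eq_zero (by omega)]
    exact ⟨le_rfl, zero_le_one⟩

theorem taskA2 : TaskA2 := by
  intro n m t hmn ht1 htn
  obtain ⟨s, rfl⟩ : ∃ s, t = s + 1 := ⟨t - 1, by omega⟩
  have hs : s ≤ n := by omega
  have hn0 : (n : ℝ) + 1 ≠ 0 := by positivity
  have e1 : cc (n + 1) (m + 1) (s + 1) = cc n m s * (((m : ℝ) + 1) / ((n : ℝ) + 1)) := by
    unfold cc
    rw [Finset.prod_range_succ']
    congr 1
    · apply Finset.prod_congr rfl
      intro i _
      push_cast
      congr 1 <;> ring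
    · push_cast
      simp
  have e2 : cc n m (s + 1) = cc n m s * (((m : ℝ) - s) / ((n : ℝ) - s)) := by
    unfold cc
    rw [Finset.prod_range_succ]
  rw [e1, e2, Nat.add_sub_cancel]
  push_cast
  have e3 : ((n : ℝ) + 1) * (cc n m s * (((m : ℝ) + 1) / ((n : ℝ) + 1))) =
      ((m : ℝ) + 1) * cc n m s := by
    field_simp
  rw [e3]
  by_cases hsn : s = n
  · subst hsn
    by_cases hms : m = s
    · subst hms
      simp
    · have : cc s m s = 0 := cc_eq_zero (by omega)
      rw [this]
      simp
  · have h1 : (n : ℝ) - s ≠ 0 := by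
      have : (s : ℝ) < n := by exact_mod_cast lt_of_le_of_ne hs hsn
      linarith
    field_simp
    ring

end Pool.Agent.H889R3.SA
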